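import Mathlib
import Pool.Agent.H34.C5Blow

namespace Pool.Agent.Results.MP_0bffa7_co.Blowup
open Pool.Agent.H34.TreeAlphaDefs Pool.Agent.H34.IbnDefs

/-- For every `c` some finite `P_5`-free graph has `tree-α(G) > ibn(G) + c`. -/
theorem result (c : ℕ) : ∃ (V : Type) (_ : Fintype V) (G : SimpleGraph V),
    ¬ (SimpleGraph.pathGraph 5).IsIndContained G ∧ ibn G + c < treeAlpha G :=
  Pool.Agent.H34.C5Blow.main c

end Pool.Agent.Results.MP_0bffa7_co.Blowup
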